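import Mathlib

/-!
# Positivity sets of few linear spaces of small dimension and random labels
-/

set_option autoImplicit false

open Finset

namespace Pool.Agent.Helper94.MP

variable {α : Type} [Fintype α]

open Classical in
/-- the positivity set of `g` -/
noncomputable def pos (g : α → ℝ) : Finset α := univ.filter fun k => 0 < g k

theorem mem_pos {g : α → ℝ} {k : α} : k ∈ pos g ↔ 0 < g k := by
  simp [pos]

open Classical in
/-- the positivity sets of the functions in `L` -/
noncomputable def posSets (L : Submodule ℝ (α → ℝ)) : Finset (Finset α) :=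
  univ.filter fun P => ∃ g ∈ L, pos g = P

theorem mem_posSets {L : Submodule ℝ (α → ℝ)} {P : Finset α} :
    P ∈ posSets L ↔ ∃ g ∈ L, pos g = P := by
  simp [posSets]

/-- more than `d` points: a dependency -/
theorem exists_dep (L : Submodule ℝ (α → ℝ)) (S : Finset α)
    (h : Module.finrank ℝ L < S.card) :
    ∃ lam : α → ℝ, (∃ k ∈ S, 0 < lam k) ∧ ∀ g ∈ L, ∑ k ∈ S, lam k * g k = 0 := by
  classical
  have h1 : ¬ LinearIndependent ℝ
      (fun k : S => ((LinearMap.proj (k : α)).comp L.subtype : Module.Dual ℝ L)) := by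
    intro hli
    have := hli.fintype_card_le_finrank
    rw [Subspace.dual_finrank_eq, Fintype.card_coe] at this
    omega
  obtain ⟨c, hc, k0, hk0⟩ := Fintype.not_linearIndependent_iff.mp h1
  have hc' : ∀ g ∈ L, ∑ k : S, c k * g k = 0 := by
    intro g hg
    have := congrArg (fun φ : Module.Dual ℝ L => φ ⟨g, hg⟩) hc
    simpa [LinearMap.sum_apply] using this
  have hsum : ∀ (e : ℝ) (g : α → ℝ), ∑ k ∈ S, (if h : k ∈ S then e * c ⟨k, h⟩ else 0) * g k =
      e * ∑ k : S, c k * g k := by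
    intro e g
    rw [← Finset.sum_coe_sort S, Finset.mul_sum]
    refine Finset.sum_congr rfl fun k _ => ?_
    rw [dif_pos k.2]
    ring
  rcases lt_or_gt_of_ne hk0 with hneg | hpos
  · refine ⟨fun k => if h : k ∈ S then (-1) * c ⟨k, h⟩ else 0, ⟨k0, k0.2, ?_⟩, fun g hg => ?_⟩
    · simp only [dif_pos k0.2]
      simpa using hneg
    · rw [hsum, hc' g hg, mul_zero]
  · refine ⟨fun k => if h : k ∈ S then 1 * c ⟨k, h⟩ else 0, ⟨k0, k0.2, ?_⟩, fun g hg => ?_⟩
    · simp only [dif_pos k0.2]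
      simpa using hpos
    · rw [hsum, hc' g hg, mul_zero]

theorem not_shatters [DecidableEq α] (L : Submodule ℝ (α → ℝ)) (S : Finset α)
    (h : Module.finrank ℝ L < S.card) : ¬ (posSets L).Shatters S := by
  intro hS
  obtain ⟨lam, ⟨k0, hk0, hp⟩, hlam⟩ := exists_dep L S h
  obtain ⟨P, hP, hSP⟩ := hS (t := S.filter fun k => 0 < lam k) (Finset.filter_subset _ _)
  obtain ⟨g, hg, rfl⟩ := mem_posSets.mp hP
  have h1 := hlam g hg
  have h2 : 0 < ∑ k ∈ S, lam k * g k := by
    have key : ∀ k ∈ S, (0 < lam k ↔ 0 < g k) := by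
      intro k hk
      have := congrArg (fun T => k ∈ T) hSP
      simpa [hk, mem_pos] using this.symm
    refine Finset.sum_pos' ?_ ⟨k0, hk0, mul_pos hp ((key k0 hk0).mp hp)⟩
    intro k hk
    by_cases hl : 0 < lam k
    · exact (mul_pos hl ((key k hk).mp hl)).le
    · have : ¬ 0 < g k := fun hgk => hl ((key k hk).mpr hgk)
      exact mul_nonneg_of_nonpos_of_nonpos (not_lt.mp hl) (not_lt.mp this)
  exact absurd h1 h2.ne'

theorem card_posSets_le (L : Submodule ℝ (α → ℝ)) (d : ℕ) (hL : Module.finrank ℝ L ≤ d) :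
    (posSets L).card ≤ ∑ i ∈ range (d + 1), (Fintype.card α).choose i := by
  classical
  have hvc : (posSets L).vcDim ≤ d := by
    unfold Finset.vcDim
    refine Finset.sup_le fun S hS => ?_
    by_contra hcon
    exact not_shatters L S (by omega) (Finset.mem_shatterer.mp hS)
  calc (posSets L).card ≤ (posSets L).shatterer.card := Finset.card_le_card_shatterer _
    _ ≤ ∑ k ∈ Iic (posSets L).vcDim, (Fintype.card α).choose k :=
        Finset.card_shatterer_le_sum_vcDim
    _ ≤ ∑ i ∈ range (d + 1), (Fintype.card α).choose i := by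
        refine Finset.sum_le_sum_of_subset fun i hi => ?_
        rw [Finset.mem_Iic] at hi
        rw [Finset.mem_range]
        omega

/-- the binomial sum -/
theorem sum_choose_le (m d : ℕ) :
    (∑ i ∈ range (d + 1), (m.choose i : ℝ)) ≤ 64 ^ d * (65 / 64) ^ m := by
  have h1 : ((1 : ℝ) / 64 + 1) ^ m = ∑ i ∈ range (m + 1), (1 / 64 : ℝ) ^ i * (m.choose i : ℝ) := by
    rw [add_pow]
    refine Finset.sum_congr rfl fun i _ => ?_
    rw [one_pow, mul_one]
  have h2 : ∀ i ∈ range (d + 1), (m.choose i : ℝ) ≤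
      64 ^ d * ((1 / 64 : ℝ) ^ i * (m.choose i : ℝ)) := by
    intro i hi
    have hid : i ≤ d := by
      have := Finset.mem_range.mp hi
      omega
    have h3 : (1 : ℝ) ≤ 64 ^ d * (1 / 64) ^ i := by
      have h4 : (64 : ℝ) ^ d = 64 ^ i * 64 ^ (d - i) := by
        rw [← pow_add]
        congr 1
        omega
      rw [h4, one_div, inv_pow]
      have h5 : (64 : ℝ) ^ i * 64 ^ (d - i) * ((64 : ℝ) ^ i)⁻¹ = 64 ^ (d - i) := by
        field_simp
      rw [h5]
      exact one_le_pow₀ (by norm_num)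
    have h6 : (0 : ℝ) ≤ (m.choose i : ℝ) := Nat.cast_nonneg _
    nlinarith
  calc (∑ i ∈ range (d + 1), (m.choose i : ℝ))
      ≤ ∑ i ∈ range (d + 1), 64 ^ d * ((1 / 64 : ℝ) ^ i * (m.choose i : ℝ)) :=
        Finset.sum_le_sum h2
    _ = 64 ^ d * ∑ i ∈ range (d + 1), ((1 / 64 : ℝ) ^ i * (m.choose i : ℝ)) := by
        rw [Finset.mul_sum]
    _ ≤ 64 ^ d * ∑ i ∈ range (m + 1), ((1 / 64 : ℝ) ^ i * (m.choose i : ℝ)) := by
        refine mul_le_mul_of_nonneg_left ?_ (by positivity)
        rcases Nat.lt_or_ge d m with hdm | hdm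
        · refine Finset.sum_le_sum_of_subset_of_nonneg ?_ fun i _ _ => by positivity
          exact Finset.range_mono (by omega)
        · have h7 : ∑ i ∈ range (d + 1), ((1 / 64 : ℝ) ^ i * (m.choose i : ℝ)) =
              ∑ i ∈ range (m + 1), ((1 / 64 : ℝ) ^ i * (m.choose i : ℝ)) := by
            refine (Finset.sum_subset (Finset.range_mono (by omega)) fun i _ hi => ?_).symm
            rw [Finset.mem_range] at hi
            rw [Nat.choose_eq_zero_of_lt (by omega)]
            simp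
          exact h7.le
    _ = 64 ^ d * (65 / 64) ^ m := by
        rw [← h1]
        norm_num

open Classical in
/-- the number of the labels that agree with the set `P` -/
noncomputable def agree (P : Finset α) (τ : α → Bool) : ℕ :=
  (univ.filter fun k => (k ∈ P ↔ τ k = true)).card

theorem agree_le_card (P : Finset α) (τ : α → Bool) : agree P τ ≤ Fintype.card α :=
  Finset.card_le_univ _

theorem sum_three_pow [DecidableEq α] (P : Finset α) :
    ∑ τ : α → Bool, (3 : ℝ) ^ agree P τ = 4 ^ Fintype.card α := by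
  classical
  have h1 : ∀ τ : α → Bool, (3 : ℝ) ^ agree P τ =
      ∏ k, if (k ∈ P ↔ τ k = true) then (3 : ℝ) else 1 := by
    intro τ
    rw [Finset.prod_ite, Finset.prod_const, Finset.prod_const_one, mul_one]
    unfold agree
    refine congrArg (fun s : Finset α => (3 : ℝ) ^ s.card) ?_
    ext k
    simp only [Finset.mem_filter, Finset.mem_univ, true_and]
  simp only [h1]
  have h2 := Finset.prod_univ_sum (fun _ : α => (univ : Finset Bool))
    (fun k b => if (k ∈ P ↔ b = true) then (3 : ℝ) else 1)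
  rw [Fintype.piFinset_univ] at h2
  rw [← h2]
  have h3 : ∀ k : α, ∑ b : Bool, (if (k ∈ P ↔ b = true) then (3 : ℝ) else 1) = 4 := by
    intro k
    rw [Fintype.sum_bool]
    by_cases hk : k ∈ P
    · simp [hk]; norm_num
    · simp [hk]; norm_num
  simp only [h3, Finset.prod_const, Finset.card_univ]

theorem card_bad_le [DecidableEq α] (P : Finset α) :
    ((univ.filter fun τ : α → Bool => 3 * Fintype.card α ≤ 4 * agree P τ).card : ℝ) *
      (2279 / 1000) ^ Fintype.card α ≤ 4 ^ Fintype.card α := by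
  rw [← sum_three_pow P]
  set m := Fintype.card α with hm
  calc ((univ.filter fun τ : α → Bool => 3 * m ≤ 4 * agree P τ).card : ℝ) * (2279 / 1000) ^ m
      = ∑ τ ∈ univ.filter fun τ : α → Bool => 3 * m ≤ 4 * agree P τ, (2279 / 1000 : ℝ) ^ m := by
        rw [Finset.sum_const, nsmul_eq_mul]
    _ ≤ ∑ τ ∈ univ.filter fun τ : α → Bool => 3 * m ≤ 4 * agree P τ, (3 : ℝ) ^ agree P τ := by
        refine Finset.sum_le_sum fun τ hτ => ?_
        have h1 : 3 * m ≤ 4 * agree P τ := (Finset.mem_filter.mp hτ).2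
        refine le_of_pow_le_pow_left₀ (n := 4) (by norm_num) (by positivity) ?_
        calc ((2279 / 1000 : ℝ) ^ m) ^ 4 = ((2279 / 1000 : ℝ) ^ 4) ^ m := by
              rw [← pow_mul, ← pow_mul, mul_comm]
          _ ≤ (3 ^ 3 : ℝ) ^ m := by
              refine pow_le_pow_left₀ (by positivity) ?_ _
              norm_num
          _ = 3 ^ (3 * m) := by rw [← pow_mul]
          _ ≤ 3 ^ (4 * agree P τ) := pow_le_pow_right₀ (by norm_num) h1
          _ = (3 ^ agree P τ) ^ 4 := by rw [← pow_mul, mul_comm]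
    _ ≤ ∑ τ : α → Bool, (3 : ℝ) ^ agree P τ :=
        Finset.sum_le_sum_of_subset_of_nonneg (Finset.filter_subset _ _)
          fun τ _ _ => by positivity

/-- the arithmetic of the union bound -/
theorem arith (m d B : ℕ) (hd : 64 * (d + B + 1) ≤ m) :
    (16 : ℝ) ^ B * (64 ^ d * (65 / 64) ^ m) * 4 ^ m ≤
      1 / 100 * 2 ^ m * (2279 / 1000) ^ m := by
  have h1 : (4 * (65 / 64) : ℝ) ^ m ≤ (9 / 10) ^ m * (2 * (2279 / 1000)) ^ m := by
    rw [← mul_pow]
    exact pow_le_pow_left₀ (by norm_num) (by norm_num) _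
  have h2 : ((9 / 10 : ℝ)) ^ m ≤ ((9 / 10) ^ 64) ^ (d + B + 1) := by
    rw [← pow_mul]
    exact pow_le_pow_of_le_one (by norm_num) (by norm_num) hd
  have h3 : ((9 / 10 : ℝ) ^ 64) ≤ 1 / 848 := by norm_num
  have h4 : (((9 / 10 : ℝ)) ^ 64) ^ (d + B + 1) ≤ (1 / 848) ^ (d + B + 1) :=
    pow_le_pow_left₀ (by positivity) h3 _
  have h5 : (1 / 848 : ℝ) ^ (d + B + 1) ≤ (1 / 64) ^ d * (1 / 16) ^ B * (1 / 100) := by
    rw [pow_add, pow_add, pow_one]
    gcongr <;> norm_num
  have h6 : (16 : ℝ) ^ B * 64 ^ d * ((1 / 64) ^ d * (1 / 16) ^ B * (1 / 100)) = 1 / 100 := by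
    have e1 : (64 : ℝ) ^ d * (1 / 64) ^ d = 1 := by rw [← mul_pow]; norm_num
    have e2 : (16 : ℝ) ^ B * (1 / 16) ^ B = 1 := by rw [← mul_pow]; norm_num
    calc (16 : ℝ) ^ B * 64 ^ d * ((1 / 64) ^ d * (1 / 16) ^ B * (1 / 100))
        = (64 ^ d * (1 / 64) ^ d) * (16 ^ B * (1 / 16) ^ B) * (1 / 100) := by ring
      _ = 1 / 100 := by rw [e1, e2]; ring
  calc (16 : ℝ) ^ B * (64 ^ d * (65 / 64) ^ m) * 4 ^ m
      = 16 ^ B * 64 ^ d * (4 * (65 / 64)) ^ m := by rw [mul_pow]; ring
    _ ≤ 16 ^ B * 64 ^ d * ((9 / 10) ^ m * (2 * (2279 / 1000)) ^ m) :=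
        mul_le_mul_of_nonneg_left h1 (by positivity)
    _ ≤ 16 ^ B * 64 ^ d * (((1 / 64) ^ d * (1 / 16) ^ B * (1 / 100)) *
          (2 * (2279 / 1000)) ^ m) := by
        refine mul_le_mul_of_nonneg_left ?_ (by positivity)
        exact mul_le_mul_of_nonneg_right (h2.trans (h4.trans h5)) (by positivity)
    _ = (16 ^ B * 64 ^ d * ((1 / 64) ^ d * (1 / 16) ^ B * (1 / 100))) *
          (2 * (2279 / 1000)) ^ m := by ring
    _ = 1 / 100 * 2 ^ m * (2279 / 1000) ^ m := by rw [h6, mul_pow]; ring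

/-- C1': positivity sets of `16 ^ B` linear spaces of dimension `≤ d`, random labels -/
theorem agree_le {α : Type} [Fintype α] [DecidableEq α] (d B : ℕ)
    (hd : 64 * (d + B + 1) ≤ Fintype.card α) {Λ : Type} [Fintype Λ]
    (hΛ : Fintype.card Λ ≤ 16 ^ B) (L : Λ → Submodule ℝ (α → ℝ))
    (hL : ∀ b, Module.finrank ℝ (L b) ≤ d) (G : (α → Bool) → α → ℝ)
    (hG : ∀ τ, ∃ b, G τ ∈ L b) :
    ∑ τ : α → Bool, ((univ.filter fun k => (0 < G τ k ↔ τ k = true)).card : ℝ) ≤
      76 / 100 * Fintype.card α * 2 ^ Fintype.card α := by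
  classical
  set m := Fintype.card α with hm
  set F : Finset (Finset α) := univ.biUnion fun b => posSets (L b) with hF
  have hFcard : (F.card : ℝ) ≤ 16 ^ B * (64 ^ d * (65 / 64) ^ m) := by
    have h1 : F.card ≤ ∑ b : Λ, (posSets (L b)).card := Finset.card_biUnion_le
    have h2 : ∑ b : Λ, (posSets (L b)).card ≤
        Fintype.card Λ * ∑ i ∈ range (d + 1), m.choose i := by
      calc ∑ b : Λ, (posSets (L b)).card ≤ ∑ _b : Λ, ∑ i ∈ range (d + 1), m.choose i :=
            Finset.sum_le_sum fun b _ => card_posSets_le (L b) d (hL b)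
        _ = Fintype.card Λ * ∑ i ∈ range (d + 1), m.choose i := by
            rw [Finset.sum_const, Finset.card_univ, smul_eq_mul]
    have h3 : (F.card : ℝ) ≤ (Fintype.card Λ : ℝ) * ∑ i ∈ range (d + 1), (m.choose i : ℝ) := by
      have := h1.trans h2
      exact_mod_cast this
    refine h3.trans ?_
    have h4 : (Fintype.card Λ : ℝ) ≤ 16 ^ B := by exact_mod_cast hΛ
    exact mul_le_mul h4 (sum_choose_le m d)
      (Finset.sum_nonneg fun i _ => Nat.cast_nonneg _) (by positivity)
  set bad : Finset (α → Bool) :=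
    F.biUnion fun P => univ.filter fun τ : α → Bool => 3 * m ≤ 4 * agree P τ with hbad
  have hbadcard : (bad.card : ℝ) ≤ 1 / 100 * 2 ^ m := by
    have h1 : (bad.card : ℝ) ≤ ∑ P ∈ F,
        ((univ.filter fun τ : α → Bool => 3 * m ≤ 4 * agree P τ).card : ℝ) := by
      have := Finset.card_biUnion_le (s := F)
        (t := fun P => univ.filter fun τ : α → Bool => 3 * m ≤ 4 * agree P τ)
      exact_mod_cast this
    have hpos : (0 : ℝ) < (2279 / 1000) ^ m := by positivity
    have h2 : (bad.card : ℝ) * (2279 / 1000) ^ m ≤ F.card * 4 ^ m := by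
      calc (bad.card : ℝ) * (2279 / 1000) ^ m
          ≤ (∑ P ∈ F, ((univ.filter fun τ : α → Bool => 3 * m ≤ 4 * agree P τ).card : ℝ)) *
              (2279 / 1000) ^ m := mul_le_mul_of_nonneg_right h1 hpos.le
        _ = ∑ P ∈ F, ((univ.filter fun τ : α → Bool => 3 * m ≤ 4 * agree P τ).card : ℝ) *
              (2279 / 1000) ^ m := Finset.sum_mul _ _ _
        _ ≤ ∑ _P ∈ F, (4 : ℝ) ^ m := Finset.sum_le_sum fun P _ => card_bad_le P
        _ = F.card * 4 ^ m := by rw [Finset.sum_const, nsmul_eq_mul]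
    have h3 : (F.card : ℝ) * 4 ^ m ≤ 1 / 100 * 2 ^ m * (2279 / 1000) ^ m :=
      (mul_le_mul_of_nonneg_right hFcard (by positivity)).trans (arith m d B hd)
    exact le_of_mul_le_mul_right (h2.trans h3) hpos
  have hval : ∀ τ : α → Bool,
      (univ.filter fun k => (0 < G τ k ↔ τ k = true)).card = agree (pos (G τ)) τ := by
    intro τ
    unfold agree
    refine congrArg Finset.card ?_
    ext k
    simp only [Finset.mem_filter, Finset.mem_univ, true_and, mem_pos]
  have hterm : ∀ τ : α → Bool,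
      ((univ.filter fun k => (0 < G τ k ↔ τ k = true)).card : ℝ) ≤
        3 / 4 * m + if τ ∈ bad then (m : ℝ) else 0 := by
    intro τ
    rw [hval τ]
    by_cases hb : τ ∈ bad
    · rw [if_pos hb]
      have h1 : (agree (pos (G τ)) τ : ℝ) ≤ m := by exact_mod_cast agree_le_card _ τ
      have h2 : (0 : ℝ) ≤ 3 / 4 * m := by positivity
      linarith
    · rw [if_neg hb, add_zero]
      obtain ⟨b, hb'⟩ := hG τ
      have h1 : ¬ 3 * m ≤ 4 * agree (pos (G τ)) τ := by
        intro hcon
        refine hb (Finset.mem_biUnion.mpr ⟨pos (G τ), ?_, ?_⟩)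
        · exact Finset.mem_biUnion.mpr ⟨b, Finset.mem_univ _, mem_posSets.mpr ⟨_, hb', rfl⟩⟩
        · exact Finset.mem_filter.mpr ⟨Finset.mem_univ _, hcon⟩
      have h2 : (4 * agree (pos (G τ)) τ : ℝ) ≤ 3 * m := by
        exact_mod_cast (not_le.mp h1).le
      linarith
  calc ∑ τ : α → Bool, ((univ.filter fun k => (0 < G τ k ↔ τ k = true)).card : ℝ)
      ≤ ∑ τ : α → Bool, (3 / 4 * m + if τ ∈ bad then (m : ℝ) else 0) :=
        Finset.sum_le_sum fun τ _ => hterm τ
    _ = 2 ^ m * (3 / 4 * m) + bad.card * m := by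
        rw [Finset.sum_add_distrib, Finset.sum_const, Finset.card_univ, Fintype.card_fun,
          Fintype.card_bool, nsmul_eq_mul, Finset.sum_ite_mem, Finset.univ_inter,
          Finset.sum_const, nsmul_eq_mul]
        push_cast
        rfl
    _ ≤ 2 ^ m * (3 / 4 * m) + (1 / 100 * 2 ^ m) * m := by
        have : (bad.card : ℝ) * m ≤ (1 / 100 * 2 ^ m) * m :=
          mul_le_mul_of_nonneg_right hbadcard (Nat.cast_nonneg _)
        linarith
    _ = 76 / 100 * m * 2 ^ m := by ring

end Pool.Agent.Helper94.MP
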